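import Mathlib
import Pool.Agent.U358.LP.RPoly

/-!
# The Erdős–Szemerédi conjecture for sets with small common divisors in colour classes of bounded size

Let `P` be a set of at most `δ log |B| / log log |B|` primes (possibly empty), and let `B ⊆ A` be
finite sets of integers, `B` nonempty. The conclusion in 1 and 2 is
`max (|kA|, |A ^ (k)|) ≥ c |B| ^ (k - ε)`, and even `|A ^ (k)| ≥ c |B| ^ (k - ε)` if `P` is empty.
The constants `δ, c > 0` depend on `k`, `ε` and on `r` or `d` only.

1. (Colourings.) The conclusion holds if `B` can be coloured with at most `δ |B|` colours in such a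
   way that a common divisor, free of the primes of `P`, of `r + 1` different nonzero elements of the
   same colour is always at most `|B| ^ (δ log log |B|)`. So one only needs to know the common
   divisors inside of groups of boundedly many elements.
2. (Polynomial progressions.) The conclusion holds if `B` is covered by at most `δ |B|` sets
   `m u_i g_i({0, 1, ..., |B| ^ (δ log log |B|)})`, where `m ≠ 0` is fixed, the prime factors of `u_i`
   belong to `P`, and the `g_i` are primitive integer polynomials of degree at most `d`; for instance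
   if `P` is empty and `B` is covered by `δ |B|` intervals of length `|B| ^ (δ log log |B|)` in
   arbitrary positions.
3. (All finite sets.) For all `k`, `d`, `ε` there are `n`, `η`, `c` such that for EVERY finite set `X`
   of integers, every `N ≥ |X|` and every integer polynomial `f` of degree between `1` and `d`, the
   number of the elements of `X` that have at least `n` elements of `X` within distance
   `N ^ (η log log N)` is at most `(N ^ ε Π / c) ^ (1 / k)`, where `Π` is the number of the products of
   `k` elements of the set of the nonzero values of `f` on `X`. So if a set `X` has at most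
   `|X| ^ (k - κ)` products of `k` elements (`f = x`), then all but `C |X| ^ (1 - κ / (2 k))` of its
   elements have boundedly many neighbours at superpolynomial scale.

The starting result `KFoldShortProgressions` has 1 for pairs (`r = 1`), products and at most
`|B| ^ (1 / 2)` colours, and 2 for linear progressions, products and at most `|B| ^ (1 / 2)`
progressions of polynomial length; in `SpreadValuations` and `RegularInPrimePowers` the progressions
and the distances are bounded.

Proof of 1. The colour classes are cut into blocks of bounded size. The reference divisor of `b` is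
the greatest common divisor of `b` and the product of all the common divisors of `r + 1` elements of
its block. For every prime, its valuation is that of `b` for all but at most `r` elements of the
block. Then the theorem on reference divisors (result `RobustDivisorBound`) applies. 2 follows by
Lagrange's interpolation formula, and 3 by covering the neighbourhoods of a maximal separated subset.
-/

set_option autoImplicit false

namespace Pool.Agent.Results.MP_120218_co.FewColours

open Finset Polynomial

/-- the set of the sums of `k` elements of `A` -/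
noncomputable def sums (k : ℕ) (A : Finset ℤ) : Finset ℤ :=
  (Fintype.piFinset fun _ : Fin k => A).image fun f => ∑ i, f i

/-- the set of the products of `k` elements of `A` -/
noncomputable def products (k : ℕ) (A : Finset ℤ) : Finset ℤ :=
  (Fintype.piFinset fun _ : Fin k => A).image fun f => ∏ i, f i

/-- `N ^ (η log log N)` -/
noncomputable def size (η : ℝ) (N : ℕ) : ℝ := (N : ℝ) ^ (η * Real.log (Real.log N))

/-- `P` consists of at most `δ log N / log log N` primes -/
def Few (δ : ℝ) (N : ℕ) (P : Finset ℕ) : Prop :=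
  (∀ p ∈ P, p.Prime) ∧ (P.card : ℝ) * Real.log (Real.log N) ≤ δ * Real.log N

/-- the conclusion: many sums or many products; many products if `P` is empty -/
def Holds (k : ℕ) (ε c : ℝ) (P : Finset ℕ) (A B : Finset ℤ) : Prop :=
  c * (B.card : ℝ) ^ ((k : ℝ) - ε) ≤ max ((sums k A).card : ℝ) ((products k A).card : ℝ) ∧
  (P = ∅ → c * (B.card : ℝ) ^ ((k : ℝ) - ε) ≤ ((products k A).card : ℝ))

open Pool.Agent.U358.LP Pool.Agent.U358.LP.R

lemma holds {k : ℕ} {ε c : ℝ} {P : Finset ℕ} {A B : Finset ℤ} (hB : B.Nonempty) (hc : 0 ≤ c)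
    (h : Good k (min ε 1) c P A B) : Holds k ε c P A B := by
  have hB1 : (1 : ℝ) ≤ B.card := by exact_mod_cast hB.card_pos
  have h1 : c * (B.card : ℝ) ^ ((k : ℝ) - ε) ≤ c * (B.card : ℝ) ^ ((k : ℝ) - min ε 1) := by
    refine mul_le_mul_of_nonneg_left ?_ hc
    exact Real.rpow_le_rpow_of_exponent_le hB1 (by linarith [min_le_left ε 1])
  unfold Good Pool.Agent.Y359.PE.sk Pool.Agent.Y359.PE.pk at h
  unfold Holds sums products
  refine ⟨h1.trans ?_, fun hP => h1.trans ?_⟩
  · convert h.1
  · convert h.2 hP

theorem result :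
    -- 1. colourings
    (∀ k : ℕ, 1 ≤ k → ∀ r : ℕ, ∀ ε : ℝ, 0 < ε → ∃ δ c : ℝ, 0 < δ ∧ 0 < c ∧
      ∀ (A B : Finset ℤ) (P : Finset ℕ), B ⊆ A → B.Nonempty → Few δ B.card P →
      ∀ colour : ℤ → ℕ, ((B.image colour).card : ℝ) ≤ δ * B.card →
      (∀ Q ⊆ B, Q.card = r + 1 → (0 : ℤ) ∉ Q → (∀ x ∈ Q, ∀ y ∈ Q, colour x = colour y) →
        ∀ q : ℕ, (∀ x ∈ Q, (q : ℤ) ∣ x) → (∀ p ∈ P, ¬ p ∣ q) → (q : ℝ) ≤ size δ B.card) →
      Holds k ε c P A B) ∧
    -- 2. polynomial progressions
    (∀ k : ℕ, 1 ≤ k → ∀ d : ℕ, ∀ ε : ℝ, 0 < ε → ∃ δ c : ℝ, 0 < δ ∧ 0 < c ∧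
      ∀ (A B : Finset ℤ) (P : Finset ℕ), B ⊆ A → B.Nonempty → Few δ B.card P →
      ∀ m : ℤ, m ≠ 0 → ∀ (ι : Type) (I : Finset ι) (u : ι → ℤ) (g : ι → ℤ[X]),
      (I.card : ℝ) ≤ δ * B.card →
      (∀ i ∈ I, u i ≠ 0 ∧ (∀ p : ℕ, p.Prime → (p : ℤ) ∣ u i → p ∈ P) ∧
        (g i).IsPrimitive ∧ (g i).natDegree ≤ d) →
      (∀ x ∈ B, ∃ i ∈ I, ∃ j : ℕ, (j : ℝ) ≤ size δ B.card ∧
        x = m * (u i * (g i).eval (j : ℤ))) →
      Holds k ε c P A B) ∧
    -- 3. all finite sets
    (∀ k : ℕ, 1 ≤ k → ∀ d : ℕ, ∀ ε : ℝ, 0 < ε → ∃ n : ℕ, ∃ η c : ℝ, 0 < η ∧ 0 < c ∧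
      ∀ f : ℤ[X], 1 ≤ f.natDegree → f.natDegree ≤ d → ∀ (N : ℕ) (X : Finset ℤ), X.card ≤ N →
      c * (N : ℝ) ^ (-ε) * ((X.filter fun x =>
        n ≤ (X.filter fun y => ((|y - x| : ℤ) : ℝ) ≤ size η N).card).card : ℝ) ^ k ≤
        ((products k ((X.image fun x => f.eval x).erase 0)).card : ℝ)) := by
  classical
  refine ⟨?_, ?_, ?_⟩
  · intro k hk r ε hε
    obtain ⟨δ, c, hδ, hc, h⟩ := mainC k hk r (min ε 1) (lt_min hε one_pos) (min_le_right _ _)
    refine ⟨δ, c, hδ, hc, fun A B P hBA hB hP col hcol hQ => holds hB hc.le ?_⟩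
    refine h A B P hBA hB hP.1 hP.2 ℕ col ?_ hQ
    refine le_trans ?_ hcol
    rw [Nat.cast_le]
    refine card_le_card fun v hv => ?_
    exact mem_image.2 ((@mem_image ℤ ℕ (fun a b => Classical.propDecidable (a = b)) _ _ _).1 hv)
  · intro k hk d ε hε
    obtain ⟨δ, c, hδ, hc, h⟩ := mainG k hk d (min ε 1) (lt_min hε one_pos) (min_le_right _ _)
    exact ⟨δ, c, hδ, hc, fun A B P hBA hB hP m hm ι I u g hI hg hcov => holds hB hc.le
      (h A B P hBA hB hP.1 hP.2 m hm ι I u g hI hg hcov)⟩
  · intro k hk d ε hε
    obtain ⟨n, η, c, hη, hc, h⟩ := clusters k hk d ε hε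
    refine ⟨n, η, c, hη, hc, fun f h1 h2 N X hX => ?_⟩
    have h3 := h f h1 h2 N X hX
    unfold near Pool.Agent.Y359.PE.pk Pool.Agent.R849.SV.vals at h3
    unfold products
    convert h3
    rfl

end Pool.Agent.Results.MP_120218_co.FewColours
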