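import Pool.Agent.U902.KI.Vals
import Pool.Agent.U902.KI.Clean
import Pool.Agent.U902.KI.N4
import Pool.Agent.N811.IS.Inst
import Pool.Agent.U168.KF5.K25

/-!
# The Erdos-Szemeredi problem for k-fold sums and products: larger exponents for every `k ≥ 4`

For a finite subset `A` of an abelian group let `ρ(A)` be the best constant in
`|A + X| ≥ ρ(A) |X|^(1-1/t)`. If `H` is a subgroup, `A'` is in `H` and `A₀` does not meet `H` then
`ρ(A' ∪ A₀) ≥ ρ(A') + c ρ(A₀)`, `c = 2^(1/t) - 1` (library). The induction over valuation classes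
for the potential `|A|^(1+β) / ρ(A)` works if
`(1-cQ) (1-u)^(nβ) ≤ (1 - (Q u^β)^(1/(1+β)))^(1+β)` for all `Q, u` in `[0,1]`. We show that the case
`Q = 1` implies all the others, and solve this case. The library had a stronger condition. The
resulting isoperimetric inequality is iterated, starting from the library bounds for `|3A|`
(hypercontractive for `N ≥ 5`, from the theorems of Szemeredi-Trotter and Solymosi for `N = 4`).
-/

set_option autoImplicit false

namespace Pool.Agent.Results.MP_120218_co.KFoldIsoperimetric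

open Finset Pool.Agent.U902.KI
open scoped Pointwise

/-- the set of sums of `k` elements of `A` -/
def Sum {R : Type} [CommRing R] [DecidableEq R] (k : ℕ) (A : Finset R) : Finset R :=
  (Fintype.piFinset fun _ : Fin k => A).image fun f => ∑ i, f i

/-- the set of products of `n` elements of `A` -/
def Prd {R : Type} [CommRing R] [DecidableEq R] (n : ℕ) (A : Finset R) : Finset R :=
  (Fintype.piFinset fun _ : Fin n => A).image fun f => ∏ i, f i

/-- `S` contains `1`, is closed under products, does not contain `0`, and associated elements of `S`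
are equal (for example the positive integers, or the monic polynomials over a field) -/
def IsRep {R : Type} [CommRing R] (S : Set R) : Prop :=
  (1 : R) ∈ S ∧ (∀ a ∈ S, ∀ b ∈ S, a * b ∈ S) ∧ (∀ a ∈ S, a ≠ 0) ∧
    ∀ a ∈ S, ∀ b ∈ S, Associated a b → a = b

/-- the condition on `(n, β, t)` -/
def Adm (n : ℕ) (β t : ℝ) : Prop :=
  ∀ w : ℝ, 0 ≤ w → w ≤ 1 →
    (2 - 2 ^ (1 / t)) * (1 - w ^ (1 + 1 / β)) ^ ((n : ℝ) * β) ≤ (1 - w) ^ (1 + β)

/-- `e_k = (8046 T² - 5152 T + 500)/(T (5364 T - 2835))`, `T = 2^(k-2)` -/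
noncomputable def expo (k : ℕ) : ℝ :=
  (8046 * (2 ^ (k - 2)) ^ 2 - 5152 * 2 ^ (k - 2) + 500) /
    (2 ^ (k - 2) * (5364 * 2 ^ (k - 2) - 2835))

theorem cond_of_adm {n : ℕ} {β t : ℝ} (h : Adm n β t) : Cond n β (2 ^ (1 / t) - 1) := by
  intro w h0 h1
  have e : 1 - ((2:ℝ) ^ (1 / t) - 1) = 2 - 2 ^ (1 / t) := by ring
  rw [e]
  exact h w h0 h1

theorem adm_of_cond {n : ℕ} {β t : ℝ} (h : Cond n β (2 ^ (1 / t) - 1)) : Adm n β t := by
  intro w h0 h1
  have e : 1 - ((2:ℝ) ^ (1 / t) - 1) = 2 - 2 ^ (1 / t) := by ring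
  rw [← e]
  exact h w h0 h1

theorem pow_pos' {t : ℝ} (ht : 1 < t) : 0 < (2:ℝ) ^ (1 / t) - 1 := by
  have := Real.one_lt_rpow (show (1:ℝ) < 2 by norm_num) (show 0 < 1 / t by positivity)
  linarith

theorem pow_lt' {t : ℝ} (ht : 1 < t) : (2:ℝ) ^ (1 / t) - 1 < 1 := by
  have : (2:ℝ) ^ (1 / t) < 2 ^ (1:ℝ) := by
    apply Real.rpow_lt_rpow_of_exponent_lt (by norm_num)
    rw [div_lt_one (by linarith)]
    exact ht
  rw [Real.rpow_one] at this
  linarith

/-- the closed form of the condition -/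
theorem adm_iff {n : ℕ} {β t w : ℝ} (hn : 1 ≤ n) (hβ : 0 < β) (ht : 1 < t) (hw0 : 0 < w)
    (hw1 : w < 1) (hw : ((n : ℝ) - (n - 1) * w) ^ β = 1 / w) :
    Adm n β t ↔ (2 - 2 ^ (1 / t)) * (n * (1 - w) / (n - (n - 1) * w)) ^ ((n : ℝ) * β) ≤
      (1 - w) ^ (1 + β) := by
  have hn1 : (1:ℝ) ≤ n := by exact_mod_cast hn
  have hpos : 0 < (n : ℝ) - (n - 1) * w := by nlinarith
  constructor
  · intro h
    have h1 := h w hw0.le hw1.le
    have e : 1 - w ^ (1 + 1 / β) = n * (1 - w) / (n - (n - 1) * w) := by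
      have e1 : w ^ (1 / β) = 1 / ((n : ℝ) - (n - 1) * w) := by
        have e2 : w = (1 / ((n : ℝ) - (n - 1) * w)) ^ β := by
          rw [Real.div_rpow (by norm_num) hpos.le, Real.one_rpow, hw]
          field_simp
        calc w ^ (1 / β) = ((1 / ((n : ℝ) - (n - 1) * w)) ^ β) ^ (1 / β) := by rw [← e2]
          _ = _ := by
              rw [← Real.rpow_mul (by positivity), mul_one_div_cancel hβ.ne', Real.rpow_one]
      rw [Real.rpow_add hw0, Real.rpow_one, e1, eq_div_iff hpos.ne']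
      have e3 : 1 / ((n : ℝ) - (n - 1) * w) * ((n : ℝ) - (n - 1) * w) = 1 :=
        one_div_mul_cancel hpos.ne'
      calc (1 - w * (1 / ((n : ℝ) - (n - 1) * w))) * ((n : ℝ) - (n - 1) * w) =
          ((n : ℝ) - (n - 1) * w) - w * (1 / ((n : ℝ) - (n - 1) * w) *
            ((n : ℝ) - (n - 1) * w)) := by ring
        _ = _ := by rw [e3]; ring
    rw [e] at h1
    exact h1
  · intro h
    apply adm_of_cond
    apply cond_crit hn (pow_pos' ht).le (pow_lt' ht) hβ hw0 hw1 hw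
    have e : 1 - ((2:ℝ) ^ (1 / t) - 1) = 2 - 2 ^ (1 / t) := by ring
    rw [e]
    exact h

/-- The isoperimetric sum-product inequality, and the exponents for `k`-fold sums and products. -/
theorem result :
    -- (1) the isoperimetric inequality for several sets in `R^m`
    (∀ (R : Type) [CommRing R] [IsDomain R] [UniqueFactorizationMonoid R] [DecidableEq R]
      (S : Set R), IsRep S → ∀ (m n : ℕ) (β t : ℝ), 1 ≤ n → 0 < β → 2 ≤ t → Adm n β t →
      ∀ A X : Fin n → Finset (Fin m → R), (∀ i, (A i).Nonempty) → (∀ i, (X i).Nonempty) →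
        (∀ i, ∀ a ∈ A i, ∀ j, a j ∈ S) →
        ∏ i, (((A i).card : ℝ) ^ (1 + β) * ((X i).card : ℝ) ^ (1 - 1 / t)) ≤
          (∏ i, ((A i + X i).card : ℝ)) *
            (((Fintype.piFinset A).image fun f => ∏ i, f i).card : ℝ) ^ ((n : ℝ) * β)) ∧
    -- (2) the condition need be checked at one point only
    (∀ (n : ℕ) (β t w : ℝ), 1 ≤ n → 0 < β → 1 < t → 0 < w → w < 1 →
      ((n : ℝ) - (n - 1) * w) ^ β = 1 / w →
      (Adm n β t ↔ (2 - 2 ^ (1 / t)) * (n * (1 - w) / (n - (n - 1) * w)) ^ ((n : ℝ) * β) ≤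
        (1 - w) ^ (1 + β))) ∧
    -- (3) the case `β = 1`, `t = 2n/3`
    (∀ (R : Type) [CommRing R] [IsDomain R] [UniqueFactorizationMonoid R] [DecidableEq R]
      (S : Set R), IsRep S → ∀ m n : ℕ, 3 ≤ n →
      ∀ A : Finset (Fin m → R), A.Nonempty → (∀ a ∈ A, ∀ j, a j ∈ S) →
        (∀ X : Finset (Fin m → R), X.Nonempty →
          (A.card : ℝ) ^ 2 * (X.card : ℝ) ^ (1 - 3 / (2 * (n : ℝ))) ≤
            ((A + X).card : ℝ) * ((Prd n A).card : ℝ)) ∧
        ∀ k : ℕ, ((A.card : ℝ) ^ 2 / ((Prd n A).card : ℝ)) ^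
            (2 * (n : ℝ) / 3 * (1 - (1 - 3 / (2 * (n : ℝ))) ^ k)) ≤ ((Sum k A).card : ℝ)) ∧
    -- (4) `N`-fold sums and products of positive integers
    (∀ (N : ℕ) (b β t : ℝ), 4 ≤ N → 0 ≤ b → (5 : ℝ) ≤ (N : ℝ) ^ b → 0 < β → 2 ≤ t → Adm N β t →
      ∀ A : Finset ℤ, A.Nonempty → (∀ a ∈ A, 0 < a) →
        (A.card : ℝ) ^ ((1 - 1 / t) ^ (N - 3) * (3 * (1 + b)) +
            (1 + β) * (t * (1 - (1 - 1 / t) ^ (N - 3)))) ≤
          ((Sum N A).card : ℝ) * ((Prd N A).card : ℝ) ^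
            ((1 - 1 / t) ^ (N - 3) * (3 * b) + β * (t * (1 - (1 - 1 / t) ^ (N - 3))))) ∧
    -- (5) all finite sets of integers: numerical exponents
    (∀ p ∈ ([(5, 1.5296), (6, 1.5863), (7, 1.6339), (8, 1.675), (9, 1.7107), (10, 1.7422),
        (11, 1.7705), (12, 1.796), (15, 1.8595), (20, 1.9395), (26, 2.009), (50, 2.1746),
        (100, 2.341)] : List (ℕ × ℝ)), ∀ A : Finset ℤ, A.Nonempty →
      ((A.card : ℝ) / 3) ^ p.2 ≤ max ((Sum p.1 A).card : ℝ) ((Prd p.1 A).card : ℝ)) ∧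
    -- (6) all finite sets of integers: `k = 4`
    (∀ κ : ℝ, κ < 575 / 393 → ∃ c : ℝ, 0 < c ∧ ∀ A : Finset ℤ, A.Nonempty →
      c * (A.card : ℝ) ^ κ ≤ max ((Sum 4 A).card : ℝ) ((Prd 4 A).card : ℝ)) ∧
    -- (7) rings which embed in the reals: `k ≥ 3`
    (∀ k : ℕ, 3 ≤ k → ∀ κ : ℝ, κ < expo k → ∃ c : ℝ, 0 < c ∧
      ∀ (R : Type) [CommRing R] [DecidableEq R] (f : R →+* ℝ), Function.Injective f →
        ∀ A : Finset R, A.Nonempty →
          c * (A.card : ℝ) ^ κ ≤ max ((Sum k A).card : ℝ) ((Prd k A).card : ℝ)) := by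
  refine ⟨?_, ?_, ?_, ?_, ?_, ?_, ?_⟩
  · intro R _ _ _ _ S hS m n β t hn hβ ht hadm A X hA hX hAS
    have h1t : 1 / t ≤ 1 / 2 := one_div_le_one_div_of_le (by norm_num) ht
    have h1t0 : 0 < 1 / t := by positivity
    have e : 1 - (1 - 1 / t) = 1 / t := by ring
    exact iso_family' (Pool.Agent.N811.IS.vrPi
      (Pool.Agent.N811.IS.vrUFD S hS.1 hS.2.1 hS.2.2.1 hS.2.2.2) m) hn (θ := 1 - 1 / t)
      (c := 2 ^ (1 / t) - 1) (by linarith) (by linarith) (pow_pos' (by linarith)) (by rw [e]) hβ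
      (cond_of_adm hadm) A hA hAS X hX
  · intro n β t w hn hβ ht hw0 hw1 hw
    exact adm_iff hn hβ ht hw0 hw1 hw
  · intro R _ _ _ _ S hS m n hn A hA hAS
    have hn3 : (3:ℝ) ≤ n := by exact_mod_cast hn
    have hx : 3 / (2 * (n:ℝ)) ≤ 1 / 2 := by
      rw [div_le_div_iff₀ (by positivity) (by norm_num)]; linarith
    have hx0 : 0 < 3 / (2 * (n:ℝ)) := by positivity
    have e : 1 - (1 - 3 / (2 * (n:ℝ))) = 3 / (2 * (n:ℝ)) := by ring
    have hc0 : 0 < (2:ℝ) ^ (3 / (2 * (n:ℝ))) - 1 := by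
      have := Real.one_lt_rpow (show (1:ℝ) < 2 by norm_num) hx0
      linarith
    set V := Pool.Agent.N811.IS.vrPi (Pool.Agent.N811.IS.vrUFD S hS.1 hS.2.1 hS.2.2.1 hS.2.2.2) m
    refine ⟨?_, ?_⟩
    · intro X hX
      have h := iso_one' V (show 1 ≤ n by omega) (θ := 1 - 3 / (2 * (n:ℝ)))
        (c := 2 ^ (3 / (2 * (n:ℝ))) - 1) (by linarith) (by linarith) hc0 (by rw [e]) one_pos
        (cond_clean hn) A hA hAS X hX
      have e2 : (1:ℝ) + 1 = ((2:ℕ):ℝ) := by norm_num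
      rw [e2, Real.rpow_natCast, Real.rpow_one] at h
      exact h
    · intro k
      have h0 : (A.card : ℝ) ^ (0:ℝ) ≤ ((Pool.Agent.N811.IS.sumset 0 A).card : ℝ) *
          ((Pool.Agent.N811.IS.prodset fun _ : Fin n => A).card : ℝ) ^ (0:ℝ) := by
        rw [Pool.Agent.N811.IS.sumset_zero]
        simp
      have h := chain' V (show 1 ≤ n by omega) (θ := 1 - 3 / (2 * (n:ℝ)))
        (c := 2 ^ (3 / (2 * (n:ℝ))) - 1) (by linarith) (by linarith) hc0 (by rw [e]) one_pos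
        (cond_clean hn) A hA hAS 0 h0 k
      rw [zero_add, mul_zero, zero_add, zero_add, e, one_mul] at h
      have e3 : (1 - (1 - 3 / (2 * (n:ℝ))) ^ k) / (3 / (2 * (n:ℝ))) =
          2 * (n : ℝ) / 3 * (1 - (1 - 3 / (2 * (n : ℝ))) ^ k) := by
        field_simp
      rw [e3] at h
      have hcard : (1:ℝ) ≤ A.card := by exact_mod_cast hA.card_pos
      have hPle : (A.card : ℝ) ≤ (Prd n A).card := by
        exact_mod_cast Pool.Agent.N811.IS.card_le_prodset V (fun _ : Fin n => A) (fun _ => hA)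
          (fun _ => hAS) ⟨0, by omega⟩
      have hP0 : (0:ℝ) < (Prd n A).card := by linarith
      change (A.card : ℝ) ^ ((1 + 1) * (2 * (n : ℝ) / 3 * (1 - (1 - 3 / (2 * (n : ℝ))) ^ k))) ≤
        ((Sum k A).card : ℝ) * ((Prd n A).card : ℝ) ^
          (2 * (n : ℝ) / 3 * (1 - (1 - 3 / (2 * (n : ℝ))) ^ k)) at h
      rw [Real.div_rpow (by positivity) hP0.le, div_le_iff₀ (by positivity)]
      refine le_trans (le_of_eq ?_) h
      have e4 : (1:ℝ) + 1 = ((2:ℕ):ℝ) := by norm_num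
      rw [e4, Real.rpow_mul (show (0:ℝ) ≤ A.card by linarith) ((2:ℕ):ℝ) _, Real.rpow_natCast]
  · intro N b β t hN hb h5 hβ ht hadm A hA hAp
    have h1t : 1 / t ≤ 1 / 2 := one_div_le_one_div_of_le (by norm_num) ht
    have h1t0 : 0 < 1 / t := by positivity
    have ht0 : 0 < t := by linarith
    have e : 1 - (1 - 1 / t) = 1 / t := by ring
    have h1 : (A.card : ℝ) ^ (3 * (1 + b)) ≤ ((Pool.Agent.N811.IS.sumset 3 A).card : ℝ) *
        ((Pool.Agent.N811.IS.prodset fun _ : Fin N => A).card : ℝ) ^ (3 * b) := by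
      have := Pool.Agent.N811.SP.single2 (k := 3) (n := N) le_rfl (by omega) (by omega) (β := b)
        (by norm_num; exact h5) A hA hAp
      push_cast at this
      exact this
    have h := chain' Pool.Agent.N811.IS.vrInt (show 1 ≤ N by omega) (θ := 1 - 1 / t)
      (c := 2 ^ (1 / t) - 1) (by linarith) (by linarith) (pow_pos' (by linarith)) (by rw [e]) hβ
      (cond_of_adm hadm) A hA hAp 3 h1 (N - 3)
    have e3 : 3 + (N - 3) = N := by omega
    rw [e3, e] at h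
    have e4 : (1 - (1 - 1 / t) ^ (N - 3)) / (1 / t) = t * (1 - (1 - 1 / t) ^ (N - 3)) := by
      field_simp
    rw [e4] at h
    exact h
  · intro p hp A hA
    simp only [List.mem_cons, List.not_mem_nil, or_false] at hp
    rcases hp with rfl | rfl | rfl | rfl | rfl | rfl | rfl | rfl | rfl | rfl | rfl | rfl | rfl
    exacts [v5 A hA, v6 A hA, v7 A hA, v8 A hA, v9 A hA, v10 A hA, v11 A hA, v12 A hA, v15 A hA,
      v20 A hA, v26 A hA, v50 A hA, v100 A hA]
  · intro κ hκ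
    exact all4 κ hκ
  · intro k hk κ hκ
    obtain ⟨j, rfl⟩ : ∃ j, k = j + 2 := ⟨k - 2, by omega⟩
    have h1 : expo (j + 2) = Pool.Agent.U168.KF5.ex5 j := by
      unfold expo Pool.Agent.U168.KF5.ex5
      have : j + 2 - 2 = j := by omega
      rw [this]
    obtain ⟨c, hc, H⟩ := Pool.Agent.U168.KF5.k3 j (by omega) κ (by rw [← h1]; exact hκ)
    refine ⟨c, hc, ?_⟩
    intro R _ _ f hf A hA
    obtain ⟨h1, h2⟩ := Pool.Agent.W798.KF.pIM R f hf A (j + 1)
    have h3 := H (A.image f) (hA.image f)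
    rw [Finset.card_image_of_injective _ hf, h1, h2] at h3
    exact h3

end Pool.Agent.Results.MP_120218_co.KFoldIsoperimetric
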