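import Mathlib
import Pool.Agent.U516.SP.FinalK
import Pool.Agent.TeamU.G9
import Pool.Agent.TeamU.TowerFinal

/-!
# Over the reals the `k`-fold Erdős–Szemerédi conjecture fails: exponent `C log k / log log k`

The conjecture predicts `max (|kA|, |A^k|) ≥ c |A| ^ (k - ε)` for finite sets of integers. We show
that for finite sets of real numbers (even of totally real algebraic integers) the exponent `k` must
be replaced by something smaller than `C log k / log log k`:

* for all `k ≥ 16` and all large `n` there is a set `A` of `n` real algebraic integers with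
  `max (|kA|, |A^k|) ≤ n ^ (C log k / log log k)`;
* more precisely, for every `δ` in `(0, 1]` and all large `n` there is ONE such set with
  `|A^k| ≤ n ^ (1 + δ + δ log k)` and `|kA| ≤ n ^ (exp (C / δ) + δ log k)` for ALL `k ≥ 1`.

So a set of real numbers can be almost closed under multiplication (`|A A| ≤ n ^ (1 + 2 δ)`) while
the number of its `k`-fold sums grows only like `n ^ (C(δ) + δ log k)`; for integers
`|A A| ≤ n ^ (1 + δ)` implies `|kA| ≥ n ^ (k - ε)` (Bourgain and Chang).

Construction. Let `L` run through an infinite tower of totally real fields of degree `d` and bounded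
root discriminant in which 2 splits completely (library `TeamU`), let `𝔭_1, …, 𝔭_d` be the primes
over 2. For the exponent vectors `k ∈ {0, …, r} ^ d` with fixed sum choose a nonzero element `a_k`
of `𝔞_k = ∏ 𝔭_i ^ (k_i)` with conjugates as small as Minkowski's theorem allows. The ideals
`(a_k) / 𝔞_k` have norm at most `C ^ d`, so that there are at most `C' ^ d` of them, and the vectors
of the integer parts of the logarithms of the conjugates take at most `C'' ^ d` values. Keep the
elements with one such pair of data: at least `(r / C) ^ d` of them are left. A product of `k` of them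
generates one of `(k r + 1) ^ d` ideals, and its conjugates are known up to the factor `e ^ k`, which
leaves at most `(169 k) ^ d` possibilities (units). The sums lie in a box with `(C k 2 ^ r) ^ d`
elements.
-/

set_option autoImplicit false

namespace Pool.Agent.Results.MP_120218_co.RealKFold

/-- There is an absolute constant `C` such that
(1) for every `δ` with `0 < δ ≤ 1` and all large `n` there is a set `A` of `n` real numbers, all of
them algebraic integers, such that for all `k ≥ 1` the number of the `k`-fold sums is at most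
`n ^ (exp (C / δ) + δ log k)` and the number of the `k`-fold products is at most
`n ^ (1 + δ + δ log k)`;
(2) for every `k ≥ 16` and all large `n` there is a set `A` of `n` real numbers, all of them algebraic
integers, with `max (|kA|, |A^k|) ≤ n ^ (C log k / log log k)`. -/
theorem result : ∃ C : ℝ, 0 < C ∧
    (∀ δ : ℝ, 0 < δ → δ ≤ 1 → ∃ n₀ : ℕ, ∀ n : ℕ, n₀ ≤ n → ∃ A : Finset ℝ, A.card = n ∧
      (∀ a ∈ A, IsIntegral ℤ a) ∧ ∀ k : ℕ, 1 ≤ k →
        (((Fintype.piFinset (fun _ : Fin k => A)).image
            (fun f : Fin k → ℝ => ∑ i, f i)).card : ℝ) ≤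
          (n : ℝ) ^ (Real.exp (C / δ) + δ * Real.log k) ∧
        (((Fintype.piFinset (fun _ : Fin k => A)).image
            (fun f : Fin k → ℝ => ∏ i, f i)).card : ℝ) ≤
          (n : ℝ) ^ (1 + δ + δ * Real.log k)) ∧
    (∀ k : ℕ, 16 ≤ k → ∃ n₀ : ℕ, ∀ n : ℕ, n₀ ≤ n → ∃ A : Finset ℝ, A.card = n ∧
      (∀ a ∈ A, IsIntegral ℤ a) ∧
        max
          (((Fintype.piFinset (fun _ : Fin k => A)).image
              (fun f : Fin k → ℝ => ∑ i, f i)).card : ℝ)
          (((Fintype.piFinset (fun _ : Fin k => A)).image
              (fun f : Fin k → ℝ => ∏ i, f i)).card : ℝ) ≤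
          (n : ℝ) ^ (C * Real.log k / Real.log (Real.log k))) := by
  have hT := Pool.Agent.TeamU.towerS_of Pool.Agent.TeamU.obstructionBound
    Pool.Agent.TeamU.existsL0 Pool.Agent.TeamU.rankZ1
  obtain ⟨C1, hC1, h1⟩ := Pool.Agent.U516.SP.mainK hT
  obtain ⟨C2, hC2, h2⟩ := Pool.Agent.U516.SP.mainK2 hT
  refine ⟨max C1 C2, lt_of_lt_of_le hC1 (le_max_left _ _), ?_, ?_⟩
  · intro δ h0 h01
    obtain ⟨n₀, hn₀⟩ := h1 δ h0 h01
    refine ⟨max n₀ 1, fun n hn => ?_⟩
    have hn1 : (1 : ℝ) ≤ n := by exact_mod_cast le_trans (le_max_right _ _) hn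
    obtain ⟨A, hA1, hA2, hA3⟩ := hn₀ n (le_trans (le_max_left _ _) hn)
    refine ⟨A, hA1, hA2, fun k hk => ⟨(hA3 k hk).1.trans ?_, (hA3 k hk).2⟩⟩
    refine Real.rpow_le_rpow_of_exponent_le hn1 ?_
    have h3 : Real.exp (C1 / δ) ≤ Real.exp (max C1 C2 / δ) :=
      Real.exp_le_exp.mpr (div_le_div_of_nonneg_right (le_max_left _ _) h0.le)
    linarith
  · intro k hk
    obtain ⟨n₀, hn₀⟩ := h2 k hk
    refine ⟨max n₀ 1, fun n hn => ?_⟩
    have hn1 : (1 : ℝ) ≤ n := by exact_mod_cast le_trans (le_max_right _ _) hn
    obtain ⟨A, hA1, hA2, hA3⟩ := hn₀ n (le_trans (le_max_left _ _) hn)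
    refine ⟨A, hA1, hA2, hA3.trans ?_⟩
    refine Real.rpow_le_rpow_of_exponent_le hn1 ?_
    have hk1 : (16 : ℝ) ≤ k := by exact_mod_cast hk
    have hl2 : (1 : ℝ) < Real.log k := by
      have h1 : Real.log 16 ≤ Real.log k := Real.log_le_log (by norm_num) hk1
      have h3 : Real.log 16 = 4 * Real.log 2 := by
        rw [show (16 : ℝ) = 2 ^ 4 by norm_num, Real.log_pow]; push_cast; ring
      have h4 := Real.log_two_gt_d9
      linarith
    have hll : 0 < Real.log (Real.log k) := Real.log_pos hl2
    refine div_le_div_of_nonneg_right ?_ hll.le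
    exact mul_le_mul_of_nonneg_right (le_max_right _ _) (by linarith)

end Pool.Agent.Results.MP_120218_co.RealKFold
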