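import Mathlib
import Pool.Agent.U358.LP.RBoth
import Pool.Agent.U358.LP.Sharp

/-!
# A robust divisor bound: the Erdős–Szemerédi conjecture for sets with reference divisors

If all the elements of a set `B` of integers are quotients of numbers of size at most
`|B| ^ (δ log log |B|)`, the classical bound for the number of divisors shows that `B` has at least
`c |B| ^ (k - ε)` products of `k` elements. We show that it is enough to know this at every single
prime for most of the elements, and combine it with sums.

Let `P` be a set of at most `δ log |B| / log log |B|` primes (possibly empty), and let `B ⊆ A` be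
finite sets of integers, `B` nonempty. Assign to every `b ∈ B` a rational number `D(b) ≠ 0` with
numerator and denominator at most `|B| ^ (δ log log |B|)`, and to every prime an integer `e(p)`.
Suppose that for every prime `p` outside `P` the equality `v_p(b) = e(p) + v_p(D(b))` fails for at
most `δ |B|` of the nonzero elements `b ∈ B`. Then
`max (|kA|, |A ^ (k)|) ≥ c |B| ^ (k - ε)`, and even `|A ^ (k)| ≥ c |B| ^ (k - ε)` if `P` is empty.
The constants `δ, c > 0` depend on `k` and `ε` only. The exceptional elements at `p` are arbitrary,
and every element may be exceptional at many primes; nothing is assumed about the exponents of the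
primes of `P`.

The case that `D` is constant is in the starting result `FewPopularPrimes`; the case that the
deviations from `e(p)` are bounded for most elements, for every `p`, and `P` is empty, is in the
starting result `SpreadValuations`.

The size allowed for `D` is optimal up to the value of `δ`: there are arbitrarily large sets `S` of
positive integers at most `|S| ^ (6 log log |S|)` (take `D(b) = b`, `e = 0`) with
`|S ^ (k)| ≤ |S| ^ (log (k + 1) / log 2)` for all `k`; the exponent is less than `k` if `k ≥ 2`.

Proof. Only few primes are popular in the numbers `D(b)`, and the vectors of the valuations of the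
`D(b)` at the popular primes take only `|B| ^ o(1)` values, which we use as labels. Subtracting the
label from the vector of the valuations of a random element of `B` gives a vector whose coordinates
vanish most of the time, and the entropy inequality of the starting library `Y359.PE` (primes exposed
one by one) applies to the sum of `k` independent copies. The sums enter through the starting theorem
on long fibres (subspace theorem), when many elements of `B` have many companions with the same
valuations outside of `P`.
-/

set_option autoImplicit false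

namespace Pool.Agent.Results.MP_120218_co.RobustDivisorBound

open Finset

/-- the set of the sums of `k` elements of `A` -/
noncomputable def sums (k : ℕ) (A : Finset ℤ) : Finset ℤ :=
  (Fintype.piFinset fun _ : Fin k => A).image fun f => ∑ i, f i

/-- the set of the products of `k` elements of `A` -/
noncomputable def products (k : ℕ) (A : Finset ℤ) : Finset ℤ :=
  (Fintype.piFinset fun _ : Fin k => A).image fun f => ∏ i, f i

/-- `N ^ (η log log N)` -/
noncomputable def size (η : ℝ) (N : ℕ) : ℝ := (N : ℝ) ^ (η * Real.log (Real.log N))

/-- reference divisors -/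
theorem result :
    (∀ k : ℕ, 1 ≤ k → ∀ ε : ℝ, 0 < ε → ∃ δ c : ℝ, 0 < δ ∧ 0 < c ∧
      ∀ (A B : Finset ℤ) (P : Finset ℕ), B ⊆ A → B.Nonempty → (∀ p ∈ P, p.Prime) →
      (P.card : ℝ) * Real.log (Real.log B.card) ≤ δ * Real.log B.card →
      ∀ (e : ℕ → ℤ) (D : ℤ → ℚ),
      (∀ b ∈ B, b ≠ 0 → D b ≠ 0 ∧ (((D b).num.natAbs : ℕ) : ℝ) ≤ size δ B.card ∧
        ((D b).den : ℝ) ≤ size δ B.card) →
      (∀ p : ℕ, p.Prime → p ∉ P → ((B.filter fun b => b ≠ 0 ∧
        (padicValInt p b : ℤ) ≠ e p + padicValRat p (D b)).card : ℝ) ≤ δ * B.card) →
      c * (B.card : ℝ) ^ ((k : ℝ) - ε) ≤ max ((sums k A).card : ℝ) ((products k A).card : ℝ) ∧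
      (P = ∅ → c * (B.card : ℝ) ^ ((k : ℝ) - ε) ≤ ((products k A).card : ℝ))) ∧
    (∀ N : ℕ, ∃ S : Finset ℤ, N ≤ S.card ∧ (∀ s ∈ S, 1 ≤ s ∧ (s : ℝ) ≤ size 6 S.card) ∧
      ∀ k : ℕ, ((products k S).card : ℝ) ≤
        (S.card : ℝ) ^ (Real.log ((k : ℝ) + 1) / Real.log 2)) := by
  classical
  refine ⟨?_, ?_⟩
  · intro k hk ε hε
    obtain ⟨δ, c, hδ, hc, h⟩ := Pool.Agent.U358.LP.R.mainB k hk (min ε 1) (lt_min hε one_pos)
      (min_le_right _ _)
    refine ⟨δ, c, hδ, hc, fun A B P hBA hB hP hPc e D hD hpop => ?_⟩
    have hB1 : (1 : ℝ) ≤ B.card := by exact_mod_cast hB.card_pos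
    have h1 : c * (B.card : ℝ) ^ ((k : ℝ) - ε) ≤ c * (B.card : ℝ) ^ ((k : ℝ) - min ε 1) := by
      refine mul_le_mul_of_nonneg_left ?_ hc.le
      exact Real.rpow_le_rpow_of_exponent_le hB1 (by linarith [min_le_left ε 1])
    have hg := h A B P hBA hB hP hPc e (fun b => (D b).num.natAbs) (fun b => (D b).den) (by
      intro b hb hb0
      obtain ⟨h1, h2, _⟩ := hD b hb hb0
      exact ⟨Int.natAbs_ne_zero.2 (Rat.num_ne_zero.2 h1), h2⟩) (by
      intro b hb hb0
      obtain ⟨_, _, h3⟩ := hD b hb hb0
      exact ⟨(D b).den_nz, h3⟩) (by
      intro p hp hpP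
      have h1 := hpop p hp hpP
      have e1 : ∀ b : ℤ, ((padicValInt p b : ℤ) ≠ e p + padicValRat p (D b)) ↔
          ((Pool.Agent.Y359.PE.fa b p : ℤ) ≠
            e p + ((D b).num.natAbs.factorization p : ℤ) - ((D b).den.factorization p : ℤ)) := by
        intro b
        unfold padicValInt Pool.Agent.Y359.PE.fa padicValRat padicValInt
        rw [Nat.factorization_def _ hp, Nat.factorization_def _ hp, Nat.factorization_def _ hp,
          add_sub_assoc]
      simp only [e1] at h1
      convert h1)
    unfold Pool.Agent.U358.LP.R.Good Pool.Agent.Y359.PE.sk Pool.Agent.Y359.PE.pk at hg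
    unfold sums products
    refine ⟨h1.trans ?_, fun hPe => h1.trans ?_⟩
    · convert hg.1
    · convert hg.2 hPe
  · intro N
    obtain ⟨S, h1, h2, h3⟩ := Pool.Agent.U358.LP.sharp N
    refine ⟨S, h1, h2, fun k => ?_⟩
    have h4 := h3 k
    unfold Pool.Agent.Y359.PE.pk at h4
    unfold products
    convert h4

end Pool.Agent.Results.MP_120218_co.RobustDivisorBound
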